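import Pool.Agent.MP42.NE.Fin

/-!
# Grid refinement for orthogonal polyhedra of every genus

Every orthogonal polyhedron, of any genus, has an edge unfolding after a suitable finite refinement
of its grid (the degree of the refinement depends on the polyhedron).
-/

namespace Pool.Agent.Results.MP_42d4af_co.AnyGenus

open Pool.Agent.Helper55.UNF

theorem result (P : GridSolid) (hP : P.IsOrthogonalPolyhedron) :
    ∃ (k : ℕ) (hk : 0 < k), (P.refine k hk).HasEdgeUnfolding :=
  Pool.Agent.MP42.NE.finite_refinement P hP

end Pool.Agent.Results.MP_42d4af_co.AnyGenus
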