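import Pool.Agent.MP42.D.F

/-!
# Bounded grid refinement, all vertices of degree three

If every vertex of an orthogonal polyhedron (of any genus) has degree three, then its 2590 by 2590
refinement has an edge unfolding.
-/

namespace Pool.Agent.Results.MP_42d4af_co.DegreeThree

open Pool.Agent.Helper55.UNF Pool.Agent.MP42

theorem result (P : GridSolid) (hP : P.IsOrthogonalPolyhedron) (h3 : Deg3 P) :
    (P.refine 2590 (Nat.succ_pos 2589)).HasEdgeUnfolding :=
  Pool.Agent.MP42D.main_deg3 P hP h3

end Pool.Agent.Results.MP_42d4af_co.DegreeThree
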