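import Pool.Agent.MP42.GZ.Fin

/-!
# Bounded grid refinement, genus zero

Every orthogonal polyhedron of genus zero has an edge unfolding after the 918733 by 918733
refinement of its grid.
-/

namespace Pool.Agent.Results.MP_42d4af_co.GenusZero

open Pool.Agent.Helper55.UNF Pool.Agent.MP42.EO

theorem result (P : GridSolid) (hP : P.IsOrthogonalPolyhedron) (hE : Pool.BW.eul P = 2) :
    (P.refine 918733 (Nat.succ_pos 918732)).HasEdgeUnfolding :=
  unfold_of_layout (K := 636) (by norm_num) Pool.Agent.MP42.GZ.layoutThm hP hE (N := 459366)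
    (by norm_num) (Nat.succ_pos 918732)

end Pool.Agent.Results.MP_42d4af_co.GenusZero
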